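import Mathlib
import Pool.Agent.Lib.SemiEb.Final

/-!
# All equivalent dual balls are semi-Eberlein: a characterization by one dual ball

Let `X` be a real Banach space whose density character `κ` has uncountable cofinality.  The dual
ball of every equivalent norm of `X` is semi-Eberlein if and only if for every set `G` of at most
`κ` points of the dual unit ball of `X` there is an embedding of the dual unit ball in a cube
which maps `G` into `c₀`.
-/

set_option autoImplicit false

open Cardinal Topology Set Filter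

universe u

namespace Pool.Agent.Results.MP_2df815_an.Characterization

/-- A topological space is semi-Eberlein (as a compactum): it embeds into a power `[-1,1]^Γ`
in such a way that the points which are mapped into `c₀(Γ)` are dense. -/
def SemiEberlein (K : Type u) [TopologicalSpace K] : Prop :=
  ∃ (Γ : Type u) (h : K → Γ → ℝ), IsEmbedding h ∧ (∀ k γ, h k γ ∈ Set.Icc (-1 : ℝ) 1) ∧
    Dense {k | ∀ ε > 0, {γ | ε < |h k γ|}.Finite}

variable {X : Type u} [NormedAddCommGroup X] [NormedSpace ℝ X]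

/-- `N` is an equivalent norm on `X`. -/
def EquivalentNorm (N : Seminorm ℝ X) : Prop :=
  ∃ c C : ℝ, 0 < c ∧ 0 < C ∧ ∀ x, c * ‖x‖ ≤ N x ∧ N x ≤ C * ‖x‖

/-- The closed unit ball of the norm dual to `N`; as a subset of `WeakDual ℝ X` it carries the
weak* topology. -/
def DualBall (N : Seminorm ℝ X) : Set (WeakDual ℝ X) := {f | ∀ x, |f x| ≤ N x}

/-- The density character: the least cardinality of a dense subset. -/
noncomputable def densityCharacter (X : Type u) [TopologicalSpace X] : Cardinal.{u} :=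
  sInf {c | ∃ D : Set X, Dense D ∧ #D = c}

/-- The set `G` is mapped into `c₀(Γ)` by an embedding of `K` in a cube `[-1,1]^Γ`. -/
def EmbedsIntoC0 {K : Type u} [TopologicalSpace K] (G : Set K) : Prop :=
  ∃ (Γ : Type u) (h : K → Γ → ℝ), IsEmbedding h ∧ (∀ k γ, h k γ ∈ Set.Icc (-1 : ℝ) 1) ∧
    ∀ k ∈ G, ∀ ε > 0, {γ | ε < |h k γ|}.Finite

/-- From a `σ-c₀` family to an embedding. -/
theorem embedsIntoC0_of_sigma {K : Type u} [TopologicalSpace K] [CompactSpace K] [T2Space K]
    {G : Set K} (hfam : ∃ (Δ : Type u) (H : Δ → K → ℝ), (∀ δ, Continuous (H δ)) ∧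
      (∀ y y', (∀ δ, H δ y = H δ y') → y = y') ∧ SemiEb.SigmaC0 G H) : EmbedsIntoC0 G := by
  obtain ⟨Δ, H, hc, hs, hσ⟩ := hfam
  choose n hn using fun m : ℕ => hσ (1 / ((m : ℝ) + 1)) (by positivity)
  let sg : Bool → ℝ := fun b => if b then 1 else -1
  let co : Δ × ℕ × Bool → ℝ := fun q => 1 / (((q.2.1 : ℝ) + 1) * ((n q.2.1 q.1 : ℝ) + 1))
  have hco : ∀ q, 0 < co q := fun q => by positivity
  have hco1 : ∀ q, co q ≤ 1 / ((q.2.1 : ℝ) + 1) := fun q => by
    apply one_div_le_one_div_of_le (by positivity)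
    have h1 : (0 : ℝ) ≤ n q.2.1 q.1 := by positivity
    have h2 : (0 : ℝ) ≤ q.2.1 := by positivity
    nlinarith
  have hco2 : ∀ q, co q ≤ 1 / ((n q.2.1 q.1 : ℝ) + 1) := fun q => by
    apply one_div_le_one_div_of_le (by positivity)
    have h1 : (0 : ℝ) ≤ n q.2.1 q.1 := by positivity
    have h2 : (0 : ℝ) ≤ q.2.1 := by positivity
    nlinarith
  have hcole : ∀ q, co q ≤ 1 := fun q => (hco1 q).trans (by
    rw [div_le_one (by positivity)]
    have h2 : (0 : ℝ) ≤ q.2.1 := by positivity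
    linarith)
  let φ : K → Δ × ℕ × Bool → ℝ := fun y q =>
    co q * SemiEb.tau (sg q.2.2 * H q.1 y - 1 / ((q.2.1 : ℝ) + 1))
  have hφ : ∀ y q, φ y q = co q * SemiEb.tau (sg q.2.2 * H q.1 y - 1 / ((q.2.1 : ℝ) + 1)) :=
    fun q y => rfl
  have hφc : Continuous φ := continuous_pi fun q =>
    continuous_const.mul (SemiEb.tau_continuous.comp
      ((continuous_const.mul (hc q.1)).sub continuous_const))
  have hφ0 : ∀ y q, 0 ≤ φ y q := fun y q => by
    rw [hφ]
    exact mul_nonneg (hco q).le (SemiEb.tau_nonneg _)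
  have hφ1 : ∀ y q, φ y q ≤ 1 := fun y q => by
    rw [hφ]
    exact mul_le_one₀ (hcole q) (SemiEb.tau_nonneg _) (SemiEb.tau_lt_one _).le
  have aux : ∀ y y', (∀ q, φ y q = φ y' q) → ∀ δ, ¬ (H δ y < H δ y') := by
    intro y y' hyy δ hlt
    rcases lt_or_ge 0 (H δ y') with hpos | hneg
    · obtain ⟨m, hm⟩ := exists_nat_one_div_lt hpos
      have h1 := hyy (δ, m, true)
      rw [hφ, hφ] at h1
      have h2 := mul_left_cancel₀ (hco _).ne' h1
      simp only [sg, if_true, one_mul] at h2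
      have h3 := SemiEb.tau_eq (by linarith) h2.symm
      linarith
    · have hpos : 0 < - H δ y := by linarith
      obtain ⟨m, hm⟩ := exists_nat_one_div_lt hpos
      have h1 := hyy (δ, m, false)
      rw [hφ, hφ] at h1
      have h2 := mul_left_cancel₀ (hco _).ne' h1
      simp only [sg, Bool.false_eq_true, if_false, neg_mul, one_mul] at h2
      have h3 := SemiEb.tau_eq (by linarith) h2
      linarith
  have hinj : Function.Injective φ := by
    intro y y' hyy
    have hyy' : ∀ q, φ y q = φ y' q := fun q => congrFun hyy q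
    refine hs _ _ fun δ => ?_
    rcases lt_trichotomy (H δ y) (H δ y') with h | h | h
    · exact absurd h (aux y y' hyy' δ)
    · exact h
    · exact absurd h (aux y' y (fun q => (hyy' q).symm) δ)
  refine ⟨Δ × ℕ × Bool, φ, (hφc.isClosedEmbedding hinj).isEmbedding,
    fun y q => ⟨by linarith [hφ0 y q], hφ1 y q⟩, ?_⟩
  intro y hy ε hε
  obtain ⟨M, hM⟩ := exists_nat_gt (1 / ε)
  have hfin : (⋃ m ∈ Iio M, ⋃ j ∈ Iio M, ⋃ b : Bool,
      (fun δ => ((δ, m, b) : Δ × ℕ × Bool)) ''
        {δ | n m δ = j ∧ 1 / ((m : ℝ) + 1) < |H δ y|}).Finite := by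
    refine (finite_Iio M).biUnion fun m _ => (finite_Iio M).biUnion fun j _ => ?_
    refine finite_iUnion fun b => ?_
    exact (hn m y hy j).image _
  refine hfin.subset ?_
  rintro ⟨δ, m, b⟩ hq
  have hq' : ε < co (δ, m, b) * SemiEb.tau (sg b * H δ y - 1 / ((m : ℝ) + 1)) := by
    have h1 : ε < |φ y (δ, m, b)| := hq
    rwa [abs_of_nonneg (hφ0 _ _)] at h1
  have ht0 := SemiEb.tau_nonneg (sg b * H δ y - 1 / ((m : ℝ) + 1))
  have ht1 := SemiEb.tau_lt_one (sg b * H δ y - 1 / ((m : ℝ) + 1))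
  have hc0 := hco (δ, m, b)
  have hlt : ε < co (δ, m, b) :=
    hq'.trans_le (mul_le_of_le_one_right hc0.le ht1.le)
  have hm : m < M := by
    have h1 : ε < 1 / ((m : ℝ) + 1) := hlt.trans_le (hco1 (δ, m, b))
    have h2 : (m : ℝ) + 1 < 1 / ε := by
      rw [lt_div_iff₀ hε]
      rw [lt_div_iff₀ (by positivity)] at h1
      linarith
    have h3 : (m : ℝ) < M := by linarith
    exact_mod_cast h3
  have hj : n m δ < M := by
    have h1 : ε < 1 / ((n m δ : ℝ) + 1) := hlt.trans_le (hco2 (δ, m, b))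
    have h2 : (n m δ : ℝ) + 1 < 1 / ε := by
      rw [lt_div_iff₀ hε]
      rw [lt_div_iff₀ (by positivity)] at h1
      linarith
    have h3 : (n m δ : ℝ) < M := by linarith
    exact_mod_cast h3
  have hpos : 0 < sg b * H δ y - 1 / ((m : ℝ) + 1) := by
    apply SemiEb.tau_pos
    by_contra hcon
    push Not at hcon
    have : SemiEb.tau (sg b * H δ y - 1 / ((m : ℝ) + 1)) = 0 := le_antisymm hcon ht0
    rw [this, mul_zero] at hq'
    linarith
  refine mem_iUnion₂.2 ⟨m, hm, mem_iUnion₂.2 ⟨n m δ, hj, mem_iUnion.2 ⟨b, δ, ⟨rfl, ?_⟩, rfl⟩⟩⟩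
  have h1 : sg b * H δ y ≤ |H δ y| := by
    cases b
    · simp only [sg, Bool.false_eq_true, if_false, neg_mul, one_mul]
      exact neg_le_abs _
    · simp only [sg, if_true, one_mul]
      exact le_abs_self _
  linarith

/-- A nonempty subspace of a power of the line with `ι` coordinates has a dense subset of
cardinality at most `max #ι ℵ₀`. -/
theorem exists_dense_of_inducing {S ι : Type u} [TopologicalSpace S] [Nonempty S]
    (Φ : S → ι → ℝ) (hΦ : IsInducing Φ) : ∃ D : Set S, Dense D ∧ #D ≤ max #ι ℵ₀ := by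
  classical
  let Bx : Finset (ι × ℚ × ℚ) → Set (ι → ℝ) := fun j =>
    {x | ∀ t ∈ j, (t.2.1 : ℝ) < x t.1 ∧ x t.1 < t.2.2}
  have hch : ∀ j, ∃ s : S, (∃ s' : S, Φ s' ∈ Bx j) → Φ s ∈ Bx j := by
    intro j
    by_cases h : ∃ s' : S, Φ s' ∈ Bx j
    · obtain ⟨s', hs'⟩ := h
      exact ⟨s', fun _ => hs'⟩
    · exact ⟨Classical.arbitrary S, fun h' => absurd h' h⟩
  choose D hD using hch
  refine ⟨range D, ?_, ?_⟩
  · rw [hΦ.dense_iff]
    intro s
    rw [mem_closure_iff]
    intro U hU hsU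
    obtain ⟨I, u, hu, hsub⟩ := isOpen_pi_iff.1 hU (Φ s) hsU
    have h : ∀ i ∈ I, ∃ q : ℚ × ℚ, (q.1 : ℝ) < Φ s i ∧ Φ s i < q.2 ∧
        Ioo (q.1 : ℝ) q.2 ⊆ u i := by
      intro i hi
      obtain ⟨a, b, hab, hsub⟩ :=
        mem_nhds_iff_exists_Ioo_subset.1 ((hu i hi).1.mem_nhds (hu i hi).2)
      obtain ⟨q1, h1, h2⟩ := exists_rat_btwn hab.1
      obtain ⟨q2, h3, h4⟩ := exists_rat_btwn hab.2
      exact ⟨(q1, q2), h2, h3, (Ioo_subset_Ioo h1.le h4.le).trans hsub⟩
    choose! q hq1 hq2 hq3 using h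
    have hmem : Φ s ∈ Bx (I.image fun i => (i, q i)) := by
      intro t ht
      obtain ⟨i, hi, rfl⟩ := Finset.mem_image.1 ht
      exact ⟨hq1 i hi, hq2 i hi⟩
    refine ⟨Φ (D (I.image fun i => (i, q i))), hsub fun i hi => hq3 i hi ?_,
      ⟨_, ⟨_, rfl⟩, rfl⟩⟩
    exact (hD _ ⟨s, hmem⟩) (i, q i) (Finset.mem_image_of_mem _ hi)
  · refine mk_range_le.trans ((SemiEb.mk_finset_le_max _).trans (max_le ?_ (le_max_right _ _)))
    have h1 : #(ι × ℚ × ℚ) = #ι * ℵ₀ := by
      rw [Cardinal.mk_prod, Cardinal.mk_prod, Cardinal.mkRat]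
      simp
    rw [h1]
    exact Cardinal.mul_le_max_of_aleph0_le_right le_rfl

/-- The characterization. -/
theorem result (X : Type u) [NormedAddCommGroup X] [NormedSpace ℝ X] [CompleteSpace X]
    (hcof : ℵ₀ < (densityCharacter X).ord.cof) :
    (∀ N : Seminorm ℝ X, EquivalentNorm N → SemiEberlein (DualBall N)) ↔
      ∀ G : Set (DualBall (normSeminorm ℝ X)), #G ≤ densityCharacter X → EmbedsIntoC0 G := by
  have hmin : densityCharacter X ∈ {c | ∃ D : Set X, Dense D ∧ #D = c} :=
    csInf_mem ⟨_, Set.univ, dense_univ, rfl⟩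
  have hle : ∀ D : Set X, Dense D → densityCharacter X ≤ #D := fun D hD =>
    csInf_le' ⟨D, hD, rfl⟩
  have hκ0 : ℵ₀ < densityCharacter X := by
    refine hcof.trans_le ?_
    have := Ordinal.cof_le_card (densityCharacter X).ord
    rwa [card_ord] at this
  obtain ⟨D, hD, hDκ⟩ := hmin
  constructor
  · intro hX G hG
    obtain ⟨Δ, h, hemb, -, hdense⟩ := hX (normSeminorm ℝ X)
      ⟨1, 1, one_pos, one_pos, fun x => by simp⟩
    have hcount : ∀ p : SemiEb.UB X, {δ | h p δ ≠ 0}.Countable :=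
      SemiEb.corson hX hemb hdense
    have : CompactSpace (DualBall (normSeminorm ℝ X)) := SemiEb.compactUB
    exact embedsIntoC0_of_sigma
      (SemiEb.sigma_of_card hX hemb hcount _ hle hκ0 _ hcof le_rfl G hG)
  · rintro hG N ⟨c, C, hc, hC, hN⟩
    have hcomp : IsCompact (DualBall N) :=
      SemiEb.isCompact_dualBall hC.le fun x => (hN x).2
    have : CompactSpace (DualBall N) := isCompact_iff_compactSpace.1 hcomp
    have hne : Nonempty (DualBall N) := ⟨⟨0, fun x => by
      change |(0 : ℝ)| ≤ N x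
      rw [abs_zero]; exact apply_nonneg N x⟩⟩
    -- a dense set
    let Φ : DualBall N → D → ℝ := fun s x => (s : WeakDual ℝ X) x
    have hΦc : Continuous Φ := continuous_pi fun x =>
      (WeakDual.eval_continuous (x : X)).comp continuous_subtype_val
    have hΦi : Function.Injective Φ := by
      intro s s' h
      apply Subtype.ext
      have h2 : (fun x => (s : WeakDual ℝ X) x) = fun x => (s' : WeakDual ℝ X) x := by
        refine Continuous.ext_on hD (s : WeakDual ℝ X).continuous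
          (s' : WeakDual ℝ X).continuous ?_
        intro x hx
        exact congrFun h ⟨x, hx⟩
      exact DFunLike.ext _ _ fun x => congrFun h2 x
    obtain ⟨E, hE, hEκ⟩ := exists_dense_of_inducing Φ (hΦc.isClosedEmbedding hΦi).isInducing
    have hEκ' : #E ≤ densityCharacter X := by
      refine hEκ.trans (max_le hDκ.le hκ0.le)
    -- scaling
    have hsc : ∀ s : DualBall N, (C⁻¹ • (s : WeakDual ℝ X)) ∈ DualBall (normSeminorm ℝ X) := by
      intro s x
      change |C⁻¹ * (s : WeakDual ℝ X) x| ≤ ‖x‖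
      rw [abs_mul, abs_of_pos (inv_pos.2 hC), inv_mul_le_iff₀ hC]
      exact (s.2 x).trans (hN x).2
    let σ : DualBall N → DualBall (normSeminorm ℝ X) := fun s => ⟨_, hsc s⟩
    have hσc : Continuous σ :=
      (continuous_subtype_val.const_smul C⁻¹).subtype_mk _
    have hσi : Function.Injective σ := by
      intro s s' h
      have h1 : C⁻¹ • (s : WeakDual ℝ X) = C⁻¹ • (s' : WeakDual ℝ X) := congrArg Subtype.val h
      exact Subtype.ext (smul_right_injective _ (inv_ne_zero hC.ne') h1)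
    obtain ⟨Γ, h, hemb, h1, h0⟩ := hG (σ '' E) (mk_image_le.trans hEκ')
    refine ⟨Γ, fun s => h (σ s), ?_, fun s γ => h1 _ _, ?_⟩
    · exact hemb.comp (hσc.isClosedEmbedding hσi).isEmbedding
    · exact hE.mono fun s hs => h0 _ (mem_image_of_mem σ hs)

end Pool.Agent.Results.MP_2df815_an.Characterization
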