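import Mathlib
import Pool.Agent.Lib.SemiEb.Final

/-!
# Semi-Eberlein dual balls under all renormings, for many density characters

Let `X` be a real Banach space whose density character `κ` is countable, or satisfies
`c ^ ℵ₀ ≤ κ` for every `c < κ` (for instance `κ = 𝔠`, or `κ = κ ^ ℵ₀`, or `κ` a strong limit).
If the dual unit ball of every equivalent norm of `X` is semi-Eberlein in the weak* topology,
then `X` is isomorphic to a subspace of a weakly compactly generated Banach space.
-/

set_option autoImplicit false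

open Cardinal Topology

universe u

namespace Pool.Agent.Results.MP_2df815_an.DensityCase

/-- A topological space is semi-Eberlein (as a compactum): it embeds into a power `[-1,1]^Γ`
in such a way that the points which are mapped into `c₀(Γ)` are dense. -/
def SemiEberlein (K : Type u) [TopologicalSpace K] : Prop :=
  ∃ (Γ : Type u) (h : K → Γ → ℝ), IsEmbedding h ∧ (∀ k γ, h k γ ∈ Set.Icc (-1 : ℝ) 1) ∧
    Dense {k | ∀ ε > 0, {γ | ε < |h k γ|}.Finite}

variable {X : Type u} [NormedAddCommGroup X] [NormedSpace ℝ X]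

/-- `N` is an equivalent norm on `X`. -/
def EquivalentNorm (N : Seminorm ℝ X) : Prop :=
  ∃ c C : ℝ, 0 < c ∧ 0 < C ∧ ∀ x, c * ‖x‖ ≤ N x ∧ N x ≤ C * ‖x‖

/-- The closed unit ball of the norm dual to `N`; as a subset of `WeakDual ℝ X` it carries the
weak* topology. -/
def DualBall (N : Seminorm ℝ X) : Set (WeakDual ℝ X) := {f | ∀ x, |f x| ≤ N x}

/-- A normed space is weakly compactly generated: it contains a weakly compact set whose linear
span is dense. -/
def WeaklyCompactlyGenerated (Y : Type u) [NormedAddCommGroup Y] [NormedSpace ℝ Y] : Prop :=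
  ∃ W : Set Y, IsCompact (toWeakSpace ℝ Y '' W) ∧ Dense (Submodule.span ℝ W : Set Y)

/-- `X` is isomorphic to a subspace of a weakly compactly generated Banach space. -/
def SubspaceOfWCG (X : Type u) [NormedAddCommGroup X] [NormedSpace ℝ X] : Prop :=
  ∃ (Y : Type u) (_ : NormedAddCommGroup Y) (_ : NormedSpace ℝ Y), CompleteSpace Y ∧
    WeaklyCompactlyGenerated Y ∧ ∃ (T : X →L[ℝ] Y) (c : ℝ), 0 < c ∧ ∀ x, c * ‖x‖ ≤ ‖T x‖

/-- The density character: the least cardinality of a dense subset. -/
noncomputable def densityCharacter (X : Type u) [TopologicalSpace X] : Cardinal.{u} :=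
  sInf {c | ∃ D : Set X, Dense D ∧ #D = c}

/-- The main theorem. -/
theorem result (X : Type u) [NormedAddCommGroup X] [NormedSpace ℝ X] [CompleteSpace X]
    (hdens : densityCharacter X ≤ ℵ₀ ∨
      ∀ c < densityCharacter X, c ^ ℵ₀ ≤ densityCharacter X)
    (hX : ∀ N : Seminorm ℝ X, EquivalentNorm N → SemiEberlein (DualBall N)) :
    SubspaceOfWCG X := by
  have hmin : densityCharacter X ∈ {c | ∃ D : Set X, Dense D ∧ #D = c} :=
    csInf_mem ⟨_, Set.univ, dense_univ, rfl⟩
  have hle : ∀ D : Set X, Dense D → densityCharacter X ≤ #D := fun D hD =>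
    csInf_le' ⟨D, hD, rfl⟩
  have hfam := SemiEb.exists_sigma_univ (X := X) hX (densityCharacter X) hle hmin hdens
  exact ⟨C(SemiEb.UB X, ℝ), inferInstance, inferInstance, inferInstance,
    SemiEb.wcg_of_sigma hfam, SemiEb.evMap X, 1, one_pos, fun x => by
      rw [one_mul]; exact SemiEb.norm_le_evMap x⟩

end Pool.Agent.Results.MP_2df815_an.DensityCase
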