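import Mathlib
import Pool.Agent.Results.MP_2df815_an.DensityCase
import Pool.Agent.Lib.H41.SemiEbMA.NotWCG
import Pool.Agent.Lib.H41.SemiEbMA.Ball
import Pool.Agent.Lib.H30C.Models
import Pool.Agent.Lib.H30C.ZMA
import Pool.Agent.Lib.H94L.Main

/-!
# Semi-Eberlein dual balls under all renormings: the question is undecidable in ZFC

`Question` is the statement of Q1.

* The generalized continuum hypothesis, as the first-order sentence `GCHIn`, holds in some model of
  ZFC, and if it holds in the universe of sets then `Question` is true.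
* Martin's axiom `MA_{ℵ₁}`, as the first-order sentence `MAIn`, holds in some model of ZFC, and if
  it holds in the universe of sets then `Question` is false; there is then a counterexample of
  density character at most `ℵ₁`.
-/

set_option autoImplicit false

open Cardinal Topology
open Pool.Agent.H5Z Pool.Agent.H30C Pool.Agent.H94L

namespace Pool.Agent.Results.MP_2df815_an.Undecidable

/-- For every equivalent norm `N` on `X` the dual ball of `N`, in the weak* topology, is
semi-Eberlein: it embeds in a cube `[0,1]^Γ` in such a way that the points mapped into `c₀(Γ)`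
are dense. -/
def AllDualBallsSemiEberlein (X : Type) [NormedAddCommGroup X] [NormedSpace ℝ X] : Prop :=
  ∀ N : Seminorm ℝ X,
    (∃ c C : ℝ, 0 < c ∧ 0 < C ∧ ∀ x : X, c * ‖x‖ ≤ N x ∧ N x ≤ C * ‖x‖) →
    ∀ B : Set (WeakDual ℝ X), B = {f : WeakDual ℝ X | ∀ x : X, |f x| ≤ N x} →
      ∃ (Γ : Type) (e : B → (Γ → ℝ)),
        Topology.IsEmbedding e ∧
        (∀ (s : B) (γ : Γ), e s γ ∈ Set.Icc (0 : ℝ) 1) ∧
        Dense {s : B | Filter.Tendsto (e s) Filter.cofinite (nhds 0)}

/-- `X` is isomorphic to a subspace of a weakly compactly generated Banach space. -/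
def IsSubspaceOfWCG (X : Type) [NormedAddCommGroup X] [NormedSpace ℝ X] : Prop :=
  ∃ (Y : Type) (_ : NormedAddCommGroup Y) (_ : NormedSpace ℝ Y),
    CompleteSpace Y ∧
    (∃ K : Set Y, IsCompact (toWeakSpace ℝ Y '' K) ∧
        Dense (Submodule.span ℝ K : Set Y)) ∧
    ∃ T : X →L[ℝ] Y, ∃ c : ℝ, 0 < c ∧ ∀ x : X, c * ‖x‖ ≤ ‖T x‖

/-- The statement of Q1. -/
def Question : Prop :=
  ∀ (X : Type) [NormedAddCommGroup X] [NormedSpace ℝ X] [CompleteSpace X],
    AllDualBallsSemiEberlein X → IsSubspaceOfWCG X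

open H41.SemiEbMA in
/-- The density character of the space `XS` is at most `ℵ₁`. -/
theorem exists_dense_XS : ∃ D : Set XS, Dense D ∧ #D ≤ ℵ₁ := by
  obtain ⟨D, hD1, hD2⟩ := SemiEb.exists_dense_small (Set.range eX) dense_span_eX
  refine ⟨D, hD1, hD2.trans (max_le ?_ (Cardinal.aleph0_le_aleph 1))⟩
  exact Cardinal.mk_range_le.trans mk_Om1.le

/-- The counterexample under `MA_{ℵ₁}`. -/
theorem exists_counterexample (hMA : Pool.Agent.H85.Sel.MartinAxiomAlephOne) :
    ∃ (X : Type) (_ : NormedAddCommGroup X) (_ : NormedSpace ℝ X), CompleteSpace X ∧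
      (∃ D : Set X, Dense D ∧ #D ≤ ℵ₁) ∧ AllDualBallsSemiEberlein X ∧ ¬ IsSubspaceOfWCG X := by
  refine ⟨H41.SemiEbMA.XS, inferInstance, inferInstance, inferInstance, exists_dense_XS, ?_, ?_⟩
  · rintro N ⟨c, C, -, hC, hN⟩ B rfl
    exact H41.SemiEbMA.exists_semiEb hMA N C hC fun x => (hN x).2
  · rintro ⟨Y, _, _, -, ⟨W, hW, hd⟩, T, c, hc, hT⟩
    exact H41.SemiEbMA.not_wcg W hW hd T c hc hT

/-- The generalized continuum hypothesis gives the positive answer. -/
theorem positive (hgch : ∀ μ : Cardinal.{0}, ℵ₀ ≤ μ → (2 : Cardinal.{0}) ^ μ = Order.succ μ) :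
    Question := by
  intro X _ _ _ hX
  refine DensityCase.result X (SemiEb.gch_pow hgch _) ?_
  intro N hN
  obtain ⟨Γ, e, he, he01, hdense⟩ := hX N hN _ rfl
  refine ⟨Γ, e, he, fun k γ => ⟨?_, (he01 k γ).2⟩, hdense.mono ?_⟩
  · linarith [(he01 k γ).1]
  · intro k hk ε hε
    have hk' : Filter.Tendsto (e k) Filter.cofinite (nhds 0) := hk
    have h1 : ∀ᶠ γ in Filter.cofinite, e k γ < ε := hk'.eventually (gt_mem_nhds hε)
    rw [Filter.eventually_cofinite] at h1
    refine h1.subset fun γ hγ => ?_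
    have hγ' : ε < |e k γ| := hγ
    rw [abs_of_nonneg (he01 k γ).1] at hγ'
    exact not_lt.2 hγ'.le

/-- Q1 is undecidable in ZFC: it holds under the generalized continuum hypothesis, fails (for
density character `ℵ₁`) under Martin's axiom `MA_{ℵ₁}`, and both have models. -/
theorem result :
    ((∃ (M : Type 1) (E : M → M → Prop), ModelsZFC E ∧ GCHIn E) ∧
      (GCHIn (fun x y : ZFSet.{0} => x ∈ y) → Question)) ∧
    ((∃ (M : Type 1) (E : M → M → Prop), ModelsZFC E ∧ MAIn E) ∧
      (MAIn (fun x y : ZFSet.{0} => x ∈ y) →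
        ¬ Question ∧
        ∃ (X : Type) (_ : NormedAddCommGroup X) (_ : NormedSpace ℝ X), CompleteSpace X ∧
          (∃ D : Set X, Dense D ∧ #D ≤ ℵ₁) ∧ AllDualBallsSemiEberlein X ∧
            ¬ IsSubspaceOfWCG X)) := by
  refine ⟨⟨exists_model_gch, fun h => positive (gch h)⟩, ⟨exists_ma_model, fun h => ?_⟩⟩
  have hc := exists_counterexample (ma_of_in h)
  refine ⟨fun hQ => ?_, hc⟩
  obtain ⟨X, _, _, _, -, hX, hnot⟩ := hc
  exact hnot (hQ X hX)

end Pool.Agent.Results.MP_2df815_an.Undecidable
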